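import Pool.Agent.helper90.FN.Goals

/-!
fn:FE : finite dimensional convergence and equicontinuity in probability imply functional convergence
(Lipschitz envelopes, step interpolation on a grid, dominated convergence).
-/

set_option autoImplicit false

open scoped BigOperators Topology
open Filter MeasureTheory

namespace Pool.Agent.helper90.FN

open Pool.Agent.helper20.HP (ind)

namespace FEaux

/-- truncated uniform distance on `[lo, hi]` -/
noncomputable def DD (lo hi : ℝ) (g h : ℝ → ℝ) : ℝ :=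
  ⨆ s : Set.Icc lo hi, min 1 |g s - h s|

theorem DD_bdd (lo hi : ℝ) (g h : ℝ → ℝ) :
    BddAbove (Set.range (fun s : Set.Icc lo hi => min (1 : ℝ) |g s - h s|)) := by
  refine ⟨1, ?_⟩
  rintro x ⟨s, rfl⟩
  exact min_le_left _ _

theorem DD_nonneg (lo hi : ℝ) (g h : ℝ → ℝ) : 0 ≤ DD lo hi g h := by
  apply Real.iSup_nonneg
  intro s
  exact le_min zero_le_one (abs_nonneg _)

theorem DD_le {lo hi : ℝ} {g h : ℝ → ℝ} {c : ℝ} (hc : 0 ≤ c)
    (H : ∀ s ∈ Set.Icc lo hi, min 1 |g s - h s| ≤ c) : DD lo hi g h ≤ c := by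
  apply Real.iSup_le _ hc
  intro s
  exact H s s.2

theorem DD_le_one (lo hi : ℝ) (g h : ℝ → ℝ) : DD lo hi g h ≤ 1 :=
  DD_le zero_le_one (fun _ _ => min_le_left _ _)

theorem le_DD {lo hi : ℝ} (g h : ℝ → ℝ) {s : ℝ} (hs : s ∈ Set.Icc lo hi) :
    min 1 |g s - h s| ≤ DD lo hi g h :=
  le_ciSup (DD_bdd lo hi g h) (⟨s, hs⟩ : Set.Icc lo hi)

theorem DD_symm (lo hi : ℝ) (g h : ℝ → ℝ) : DD lo hi g h = DD lo hi h g := by
  unfold DD
  congr 1
  funext s
  rw [abs_sub_comm]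

theorem DD_tri (lo hi : ℝ) (g h k : ℝ → ℝ) : DD lo hi g k ≤ DD lo hi g h + DD lo hi h k := by
  apply DD_le (add_nonneg (DD_nonneg _ _ _ _) (DD_nonneg _ _ _ _))
  intro s hs
  have h1 := le_DD g h hs
  have h2 := le_DD h k hs
  have h3 : |g s - k s| ≤ |g s - h s| + |h s - k s| := abs_sub_le _ _ _
  have h4 : min 1 |g s - k s| ≤ min 1 |g s - h s| + min 1 |h s - k s| := by
    have a1 := abs_nonneg (g s - h s)
    have a2 := abs_nonneg (h s - k s)
    rcases le_total 1 |g s - h s| with c1 | c1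
    · rw [min_eq_left c1]
      have : 0 ≤ min 1 |h s - k s| := le_min zero_le_one a2
      linarith [min_le_left 1 |g s - k s|]
    · rcases le_total 1 |h s - k s| with c2 | c2
      · rw [min_eq_left c2]
        have : 0 ≤ min 1 |g s - h s| := le_min zero_le_one a1
        linarith [min_le_left 1 |g s - k s|]
      · rw [min_eq_right c1, min_eq_right c2]
        linarith [min_le_right 1 |g s - k s|]
  linarith

/-- index of the grid point below `s` -/
noncomputable def jj (lo hi : ℝ) (N : ℕ) (s : ℝ) : Fin (N + 2) :=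
  ⟨min ⌊(s - lo) / ((hi - lo) / ((N : ℝ) + 1))⌋₊ (N + 1), by omega⟩

/-- grid points -/
noncomputable def gp (lo hi : ℝ) (N : ℕ) (j : Fin (N + 2)) : ℝ :=
  lo + (j : ℕ) * ((hi - lo) / ((N : ℝ) + 1))

theorem gp_mem {lo hi : ℝ} (h : lo < hi) (N : ℕ) (j : Fin (N + 2)) :
    gp lo hi N j ∈ Set.Icc lo hi := by
  have hN : (0 : ℝ) < (N : ℝ) + 1 := by positivity
  have hj : ((j : ℕ) : ℝ) ≤ (N : ℝ) + 1 := by
    have := j.2
    have h2 : (j : ℕ) ≤ N + 1 := by omega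
    exact_mod_cast h2
  have hd : 0 < (hi - lo) / ((N : ℝ) + 1) := div_pos (by linarith) hN
  constructor
  · unfold gp
    have : 0 ≤ ((j : ℕ) : ℝ) * ((hi - lo) / ((N : ℝ) + 1)) := by positivity
    linarith
  · unfold gp
    have : ((j : ℕ) : ℝ) * ((hi - lo) / ((N : ℝ) + 1)) ≤ ((N : ℝ) + 1) * ((hi - lo) / ((N : ℝ) + 1)) :=
      mul_le_mul_of_nonneg_right hj hd.le
    rw [mul_div_cancel₀ _ hN.ne'] at this
    linarith

theorem gp_close {lo hi : ℝ} (h : lo < hi) (N : ℕ) {s : ℝ} (hs : s ∈ Set.Icc lo hi) :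
    |s - gp lo hi N (jj lo hi N s)| ≤ (hi - lo) / ((N : ℝ) + 1) := by
  have hN : (0 : ℝ) < (N : ℝ) + 1 := by positivity
  set d := (hi - lo) / ((N : ℝ) + 1) with hd
  have hd0 : 0 < d := div_pos (by linarith) hN
  have h0 : 0 ≤ (s - lo) / d := div_nonneg (by linarith [hs.1]) hd0.le
  have h1 : (s - lo) / d ≤ (N : ℝ) + 1 := by
    rw [div_le_iff₀ hd0, hd, mul_div_cancel₀ _ hN.ne']
    linarith [hs.2]
  have h2 : ⌊(s - lo) / d⌋₊ ≤ N + 1 := by
    have : (⌊(s - lo) / d⌋₊ : ℝ) ≤ ((N + 1 : ℕ) : ℝ) := by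
      push_cast
      exact (Nat.floor_le h0).trans h1
    exact_mod_cast this
  have h3 : ((jj lo hi N s : Fin (N + 2)) : ℕ) = ⌊(s - lo) / d⌋₊ := by
    simp only [jj]
    exact min_eq_left h2
  unfold gp
  rw [h3]
  have h4 : (⌊(s - lo) / d⌋₊ : ℝ) * d ≤ s - lo := by
    have := mul_le_mul_of_nonneg_right (Nat.floor_le h0) hd0.le
    rwa [div_mul_cancel₀ _ hd0.ne'] at this
  have h5 : s - lo ≤ ((⌊(s - lo) / d⌋₊ : ℝ) + 1) * d := by
    have := mul_le_mul_of_nonneg_right (Nat.lt_floor_add_one ((s - lo) / d)).le hd0.le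
    rwa [div_mul_cancel₀ _ hd0.ne'] at this
  rw [abs_le]
  constructor
  · linarith
  · linarith

theorem step_tendsto (lo hi : ℝ) : Tendsto (fun N : ℕ => (hi - lo) / ((N : ℝ) + 1)) atTop (𝓝 0) := by
  have h1 : Tendsto (fun N : ℕ => (N : ℝ) + 1) atTop atTop :=
    tendsto_atTop_add_const_right _ _ tendsto_natCast_atTop_atTop
  exact h1.const_div_atTop (hi - lo)

/-- the functional of the values on the grid -/
noncomputable def Fgr (lo hi : ℝ) (N : ℕ) (Θ : (ℝ → ℝ) → ℝ) (x : Fin (N + 2) → ℝ) : ℝ :=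
  Θ (fun s => x (jj lo hi N s))

theorem Fgr_cont {lo hi : ℝ} (N : ℕ) {Θ : (ℝ → ℝ) → ℝ} {L : ℝ} (hL : 0 ≤ L)
    (hΘ : ∀ g h, |Θ g - Θ h| ≤ L * DD lo hi g h) : Continuous (Fgr lo hi N Θ) := by
  have : LipschitzWith ⟨L, hL⟩ (Fgr lo hi N Θ) := by
    apply LipschitzWith.of_dist_le_mul
    intro x y
    rw [Real.dist_eq]
    refine (hΘ _ _).trans ?_
    show L * _ ≤ L * _
    apply mul_le_mul_of_nonneg_left _ hL
    apply DD_le dist_nonneg
    intro s _
    refine (min_le_right _ _).trans ?_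
    rw [← Real.dist_eq]
    exact dist_le_pi_dist x y _
  exact this.continuous

/-- the discretised path is close -/
theorem close_of_cont {lo hi : ℝ} (h : lo < hi) (g : ℝ → ℝ) (hg : ContinuousOn g (Set.Icc lo hi)) :
    Tendsto (fun N : ℕ => DD lo hi g (fun s => g (gp lo hi N (jj lo hi N s)))) atTop (𝓝 0) := by
  have hu := isCompact_Icc.uniformContinuousOn_of_continuous hg
  rw [Metric.uniformContinuousOn_iff] at hu
  rw [Metric.tendsto_atTop]
  intro ε hε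
  obtain ⟨δ, hδ, H⟩ := hu (ε / 2) (by linarith)
  have hst := step_tendsto lo hi
  rw [Metric.tendsto_atTop] at hst
  obtain ⟨N₀, hN₀⟩ := hst δ hδ
  refine ⟨N₀, fun N hN => ?_⟩
  rw [Real.dist_eq, sub_zero, abs_of_nonneg (DD_nonneg _ _ _ _)]
  have hd := hN₀ N hN
  rw [Real.dist_eq, sub_zero] at hd
  have hd' : (hi - lo) / ((N : ℝ) + 1) < δ := (le_abs_self _).trans_lt hd
  have : DD lo hi g (fun s => g (gp lo hi N (jj lo hi N s))) ≤ ε / 2 := by
    apply DD_le (by linarith)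
    intro s hs
    refine (min_le_right _ _).trans ?_
    have hc := gp_close h N hs
    have := H s hs _ (gp_mem h N (jj lo hi N s)) (by
      rw [Real.dist_eq]; exact hc.trans_lt hd')
    rw [Real.dist_eq] at this
    exact this.le
  linarith

section conv

variable {I : ℕ → Type} [∀ k, Fintype (I k)] {p : ∀ k, I k → ℝ} {X : ∀ k, I k → ℝ → ℝ}
  {Ω : Type} [MeasurableSpace Ω] {P : Measure Ω} [IsProbabilityMeasure P] {ell : ℝ → Ω → ℝ}

theorem lip_conv (hp : ∀ k i, 0 ≤ p k i) (hp1 : ∀ k, ∑ i, p k i = 1)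
    (hmeas : ∀ r, 0 < r → AEMeasurable (ell r) P)
    (hcont : ∀ᵐ ω ∂P, ContinuousOn (fun r => ell r ω) (Set.Ioi 0))
    (hfdd : ∀ (m : ℕ) (s : Fin m → ℝ), (∀ i, 0 < s i) →
        ∀ F : BoundedContinuousFunction (Fin m → ℝ) ℝ,
        Tendsto (fun k => ∑ i, p k i * F (fun j => X k i (s j))) atTop
          (𝓝 (∫ ω, F (fun j => ell (s j) ω) ∂P)))
    (heq : ∀ a b ε η : ℝ, 0 < a → a < b → 0 < ε → 0 < η → ∃ δ : ℝ, 0 < δ ∧ ∀ᶠ k in atTop,
        ∑ i, p k i * ind (∃ s ∈ Set.Icc a b, ∃ s' ∈ Set.Icc a b, |s - s'| ≤ δ ∧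
          ε < |X k i s - X k i s'|) ≤ η)
    {lo hi L M : ℝ} (hlo : 0 < lo) (hlh : lo < hi) (hL : 0 ≤ L) {Θ : (ℝ → ℝ) → ℝ}
    (hM : ∀ g, |Θ g| ≤ M) (hΘ : ∀ g h, |Θ g - Θ h| ≤ L * DD lo hi g h) :
    AEStronglyMeasurable (fun ω => Θ (fun r => ell r ω)) P ∧
    Tendsto (fun k => ∑ i, p k i * Θ (X k i)) atTop (𝓝 (∫ ω, Θ (fun r => ell r ω) ∂P)) := by
  -- measurability of the discretised functional
  have hmN : ∀ N : ℕ, AEStronglyMeasurable
      (fun ω => Fgr lo hi N Θ (fun j => ell (gp lo hi N j) ω)) P := by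
    intro N
    apply AEMeasurable.aestronglyMeasurable
    apply (Fgr_cont N hL hΘ).measurable.comp_aemeasurable
    apply aemeasurable_pi_lambda
    intro j
    exact hmeas _ (hlo.trans_le (gp_mem hlh N j).1)
  -- a.s. convergence
  have hlim : ∀ᵐ ω ∂P, Tendsto (fun N : ℕ => Fgr lo hi N Θ (fun j => ell (gp lo hi N j) ω)) atTop
      (𝓝 (Θ (fun r => ell r ω))) := by
    filter_upwards [hcont] with ω hω
    have hg : ContinuousOn (fun r => ell r ω) (Set.Icc lo hi) :=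
      hω.mono (fun s hs => hlo.trans_le hs.1)
    have h1 := close_of_cont hlh _ hg
    have h2 : Tendsto (fun N : ℕ => L * DD lo hi (fun r => ell r ω)
        (fun s => (fun r => ell r ω) (gp lo hi N (jj lo hi N s)))) atTop (𝓝 0) := by
      simpa using h1.const_mul L
    rw [tendsto_iff_dist_tendsto_zero]
    refine squeeze_zero (fun _ => dist_nonneg) (fun N => ?_) h2
    rw [dist_comm, Real.dist_eq]
    exact hΘ _ _
  have hmΘ : AEStronglyMeasurable (fun ω => Θ (fun r => ell r ω)) P :=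
    aestronglyMeasurable_of_tendsto_ae atTop hmN hlim
  refine ⟨hmΘ, ?_⟩
  have hint : Tendsto (fun N : ℕ => ∫ ω, Fgr lo hi N Θ (fun j => ell (gp lo hi N j) ω) ∂P) atTop
      (𝓝 (∫ ω, Θ (fun r => ell r ω) ∂P)) := by
    apply tendsto_integral_of_dominated_convergence (fun _ => M) hmN (integrable_const M)
    · intro N
      exact Eventually.of_forall (fun ω => by rw [Real.norm_eq_abs]; exact hM _)
    · exact hlim
  rw [Metric.tendsto_atTop]
  intro ε₀ hε₀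
  -- parameters
  have hL1 : 0 < L + 1 := by linarith
  set ε : ℝ := ε₀ / (8 * (L + 1)) with hε
  have hεp : 0 < ε := by positivity
  obtain ⟨δ, hδ, hev⟩ := heq lo hi ε ε hlo hlh hεp hεp
  rw [Metric.tendsto_atTop] at hint
  obtain ⟨N₁, hN₁⟩ := hint (ε₀ / 4) (by linarith)
  have hst := step_tendsto lo hi
  rw [Metric.tendsto_atTop] at hst
  obtain ⟨N₂, hN₂⟩ := hst δ hδ
  set N := max N₁ N₂ with hN
  have e3 := hN₁ N (le_max_left _ _)
  have e4 := hN₂ N (le_max_right _ _)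
  rw [Real.dist_eq, sub_zero] at e4
  have e4' : (hi - lo) / ((N : ℝ) + 1) ≤ δ := ((le_abs_self _).trans_lt e4).le
  -- fdd convergence of the discretised functional
  let F : BoundedContinuousFunction (Fin (N + 2) → ℝ) ℝ :=
    BoundedContinuousFunction.ofNormedAddCommGroup (Fgr lo hi N Θ) (Fgr_cont N hL hΘ) M
      (fun x => by rw [Real.norm_eq_abs]; exact hM _)
  have e2 := hfdd (N + 2) (gp lo hi N) (fun j => hlo.trans_le (gp_mem hlh N j).1) F
  rw [Metric.tendsto_atTop] at e2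
  obtain ⟨k₁, hk₁⟩ := e2 (ε₀ / 4) (by linarith)
  obtain ⟨k₂, hk₂⟩ := Filter.eventually_atTop.1 hev
  refine ⟨max k₁ k₂, fun k hk => ?_⟩
  have a2 := hk₁ k ((le_max_left _ _).trans hk)
  have a1 := hk₂ k ((le_max_right _ _).trans hk)
  have hFe : ∀ x, F x = Fgr lo hi N Θ x := fun x => rfl
  -- comparison of Θ and the discretised functional under p k
  have a3 : |∑ i, p k i * Θ (X k i) - ∑ i, p k i * F (fun j => X k i (gp lo hi N j))| ≤
      ε₀ / 4 := by
    rw [← Finset.sum_sub_distrib]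
    refine (Finset.abs_sum_le_sum_abs _ _).trans ?_
    have hterm : ∀ i, |p k i * Θ (X k i) - p k i * F (fun j => X k i (gp lo hi N j))| ≤
        L * ε * p k i + L * (p k i * ind (∃ s ∈ Set.Icc lo hi, ∃ s' ∈ Set.Icc lo hi, |s - s'| ≤ δ ∧
          ε < |X k i s - X k i s'|)) := by
      intro i
      rw [← mul_sub, abs_mul, abs_of_nonneg (hp k i)]
      have h1 : |Θ (X k i) - F (fun j => X k i (gp lo hi N j))| ≤
          L * DD lo hi (X k i) (fun s => X k i (gp lo hi N (jj lo hi N s))) := hΘ _ _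
      have h2 : DD lo hi (X k i) (fun s => X k i (gp lo hi N (jj lo hi N s))) ≤
          ε + ind (∃ s ∈ Set.Icc lo hi, ∃ s' ∈ Set.Icc lo hi, |s - s'| ≤ δ ∧
          ε < |X k i s - X k i s'|) := by
        by_cases hE : ∃ s ∈ Set.Icc lo hi, ∃ s' ∈ Set.Icc lo hi, |s - s'| ≤ δ ∧
          ε < |X k i s - X k i s'|
        · have : ind (∃ s ∈ Set.Icc lo hi, ∃ s' ∈ Set.Icc lo hi, |s - s'| ≤ δ ∧
            ε < |X k i s - X k i s'|) = 1 := by
            unfold ind; rw [if_pos hE]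
          rw [this]
          linarith [DD_le_one lo hi (X k i) (fun s => X k i (gp lo hi N (jj lo hi N s)))]
        · have : ind (∃ s ∈ Set.Icc lo hi, ∃ s' ∈ Set.Icc lo hi, |s - s'| ≤ δ ∧
            ε < |X k i s - X k i s'|) = 0 := by
            unfold ind; rw [if_neg hE]
          rw [this, add_zero]
          apply DD_le hεp.le
          intro s hs
          refine (min_le_right _ _).trans ?_
          by_contra hc
          push Not at hc
          exact hE ⟨s, hs, _, gp_mem hlh N (jj lo hi N s), (gp_close hlh N hs).trans e4', hc⟩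
      have h3 := mul_le_mul_of_nonneg_left (h1.trans (mul_le_mul_of_nonneg_left h2 hL)) (hp k i)
      refine h3.trans (le_of_eq ?_)
      ring
    refine (Finset.sum_le_sum (fun i _ => hterm i)).trans ?_
    rw [Finset.sum_add_distrib, ← Finset.mul_sum, ← Finset.mul_sum, hp1 k, mul_one]
    have h5 : L * ε + L * ε ≤ ε₀ / 4 := by
      have : (L + 1) * ε = ε₀ / 8 := by
        rw [hε]; field_simp
      nlinarith
    have h6 := mul_le_mul_of_nonneg_left a1 hL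
    linarith
  rw [Real.dist_eq] at a2 e3 ⊢
  have a4 : |(∫ ω, F (fun j => ell (gp lo hi N j) ω) ∂P) - ∫ ω, Θ (fun r => ell r ω) ∂P| < ε₀ / 4 := by
    exact e3
  have := abs_le.1 a3
  have b2 := abs_lt.1 a2
  have b4 := abs_lt.1 a4
  rw [abs_lt]
  constructor
  · linarith [this.1, b2.1, b4.1]
  · linarith [this.2, b2.2, b4.2]

end conv

/-- the upper Lipschitz envelope -/
noncomputable def env (m : ℕ) (Ψ : (ℝ → ℝ) → ℝ) (g : ℝ → ℝ) : ℝ :=
  ⨆ g' : ℝ → ℝ, (Ψ g' - ((m : ℝ) + 2) * DD (1 / ((m : ℝ) + 2)) ((m : ℝ) + 2) g g')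

theorem env_bdd (m : ℕ) {Ψ : (ℝ → ℝ) → ℝ} {M : ℝ} (hM : ∀ g, |Ψ g| ≤ M) (g : ℝ → ℝ) :
    BddAbove (Set.range (fun g' : ℝ → ℝ =>
      (Ψ g' - ((m : ℝ) + 2) * DD (1 / ((m : ℝ) + 2)) ((m : ℝ) + 2) g g'))) := by
  refine ⟨M, ?_⟩
  rintro x ⟨g', rfl⟩
  have h1 := (abs_le.1 (hM g')).2
  have h2 : 0 ≤ ((m : ℝ) + 2) * DD (1 / ((m : ℝ) + 2)) ((m : ℝ) + 2) g g' :=
    mul_nonneg (by positivity) (DD_nonneg _ _ _ _)
  show Ψ g' - _ ≤ M
  linarith

theorem env_le (m : ℕ) {Ψ : (ℝ → ℝ) → ℝ} {M : ℝ} (hM : ∀ g, |Ψ g| ≤ M) (g : ℝ → ℝ) :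
    env m Ψ g ≤ M := by
  apply ciSup_le
  intro g'
  have h1 := (abs_le.1 (hM g')).2
  have h2 : 0 ≤ ((m : ℝ) + 2) * DD (1 / ((m : ℝ) + 2)) ((m : ℝ) + 2) g g' :=
    mul_nonneg (by positivity) (DD_nonneg _ _ _ _)
  linarith

theorem le_env (m : ℕ) {Ψ : (ℝ → ℝ) → ℝ} {M : ℝ} (hM : ∀ g, |Ψ g| ≤ M) (g : ℝ → ℝ) :
    Ψ g ≤ env m Ψ g := by
  have h1 := le_ciSup (env_bdd m hM g) g
  have h2 : DD (1 / ((m : ℝ) + 2)) ((m : ℝ) + 2) g g = 0 := by
    apply le_antisymm _ (DD_nonneg _ _ _ _)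
    apply DD_le le_rfl
    intro s _
    simp
  have h3 : Ψ g - ((m : ℝ) + 2) * DD (1 / ((m : ℝ) + 2)) ((m : ℝ) + 2) g g ≤ env m Ψ g := h1
  rw [h2] at h3
  linarith

theorem env_abs (m : ℕ) {Ψ : (ℝ → ℝ) → ℝ} {M : ℝ} (hM : ∀ g, |Ψ g| ≤ M) (g : ℝ → ℝ) :
    |env m Ψ g| ≤ M := by
  rw [abs_le]
  exact ⟨(abs_le.1 (hM g)).1.trans (le_env m hM g), env_le m hM g⟩

theorem env_lip (m : ℕ) {Ψ : (ℝ → ℝ) → ℝ} {M : ℝ} (hM : ∀ g, |Ψ g| ≤ M) (g h : ℝ → ℝ) :
    |env m Ψ g - env m Ψ h| ≤ ((m : ℝ) + 2) * DD (1 / ((m : ℝ) + 2)) ((m : ℝ) + 2) g h := by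
  have key : ∀ g h : ℝ → ℝ, env m Ψ g ≤ env m Ψ h +
      ((m : ℝ) + 2) * DD (1 / ((m : ℝ) + 2)) ((m : ℝ) + 2) g h := by
    intro g h
    apply ciSup_le
    intro g'
    have h1 := DD_tri (1 / ((m : ℝ) + 2)) ((m : ℝ) + 2) h g g'
    have h2 : Ψ g' - ((m : ℝ) + 2) * DD (1 / ((m : ℝ) + 2)) ((m : ℝ) + 2) h g' ≤ env m Ψ h :=
      le_ciSup (env_bdd m hM h) g'
    rw [DD_symm _ _ h g] at h1
    have hm : (0 : ℝ) ≤ (m : ℝ) + 2 := by positivity
    nlinarith [mul_le_mul_of_nonneg_left h1 hm]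
  rw [abs_le]
  constructor
  · have := key h g
    rw [DD_symm _ _ h g] at this
    linarith
  · have := key g h
    linarith

theorem env_tendsto {Ψ : (ℝ → ℝ) → ℝ} (hΨ : CtsFunctional Ψ) {M : ℝ} (hM : ∀ g, |Ψ g| ≤ M)
    (g : ℝ → ℝ) (hg : ContinuousOn g (Set.Ioi 0)) :
    Tendsto (fun m : ℕ => env m Ψ g) atTop (𝓝 (Ψ g)) := by
  rw [Metric.tendsto_atTop]
  intro ε hε
  obtain ⟨a, b, δ, ha, hab, hδ, H⟩ := hΨ.cts g hg (ε / 2) (by linarith)
  set δ' := min δ (1 / 2) with hδ'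
  have hδ'p : 0 < δ' := lt_min hδ (by norm_num)
  -- large m
  obtain ⟨m₁, hm₁⟩ := exists_nat_ge (1 / a)
  obtain ⟨m₂, hm₂⟩ := exists_nat_ge b
  obtain ⟨m₃, hm₃⟩ := exists_nat_ge (2 * M / δ')
  refine ⟨max m₁ (max m₂ m₃), fun m hm => ?_⟩
  have c1 : (m₁ : ℝ) ≤ m := by exact_mod_cast (le_max_left _ _).trans hm
  have c2 : (m₂ : ℝ) ≤ m := by
    exact_mod_cast ((le_max_left _ _).trans (le_max_right _ _)).trans hm
  have c3 : (m₃ : ℝ) ≤ m := by
    exact_mod_cast ((le_max_right _ _).trans (le_max_right _ _)).trans hm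
  have d1 : 1 / ((m : ℝ) + 2) ≤ a := by
    rw [div_le_iff₀ (by positivity)]
    have : 1 / a ≤ (m : ℝ) + 2 := by linarith
    rw [div_le_iff₀ ha] at this
    linarith
  have d2 : b ≤ (m : ℝ) + 2 := by linarith
  have d3 : 2 * M ≤ ((m : ℝ) + 2) * δ' := by
    have : 2 * M / δ' ≤ (m : ℝ) + 2 := by linarith
    rw [div_le_iff₀ hδ'p] at this
    linarith
  have hup : env m Ψ g ≤ Ψ g + ε / 2 := by
    apply ciSup_le
    intro g'
    rcases le_or_gt δ' (DD (1 / ((m : ℝ) + 2)) ((m : ℝ) + 2) g g') with hc | hc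
    · have h1 := mul_le_mul_of_nonneg_left hc (show (0 : ℝ) ≤ (m : ℝ) + 2 by positivity)
      have h2 := (abs_le.1 (hM g')).2
      have h3 := (abs_le.1 (hM g)).1
      linarith
    · have h1 : ∀ s ∈ Set.Icc a b, |g' s - g s| ≤ δ := by
        intro s hs
        have hs' : s ∈ Set.Icc (1 / ((m : ℝ) + 2)) ((m : ℝ) + 2) := ⟨d1.trans hs.1, hs.2.trans d2⟩
        have h2 := (le_DD g g' hs').trans_lt hc
        have h3 : δ' ≤ 1 / 2 := min_le_right _ _
        have h4 : |g s - g' s| < δ' := by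
          rcases min_lt_iff.1 h2 with h5 | h5
          · linarith
          · exact h5
        rw [abs_sub_comm]
        exact h4.le.trans (min_le_left _ _)
      have h2 := H g' h1
      have h3 := (abs_le.1 h2).2
      have h4 : 0 ≤ ((m : ℝ) + 2) * DD (1 / ((m : ℝ) + 2)) ((m : ℝ) + 2) g g' :=
        mul_nonneg (by positivity) (DD_nonneg _ _ _ _)
      linarith
  rw [Real.dist_eq, abs_lt]
  constructor
  · linarith [le_env m hM g]
  · linarith

theorem neg_cts {Ψ : (ℝ → ℝ) → ℝ} (hΨ : CtsFunctional Ψ) : CtsFunctional (fun g => - Ψ g) := by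
  refine ⟨?_, ?_⟩
  · obtain ⟨M, hM⟩ := hΨ.bdd
    exact ⟨M, fun g => by rw [abs_neg]; exact hM g⟩
  · intro g hg ε hε
    obtain ⟨a, b, δ, ha, hab, hδ, H⟩ := hΨ.cts g hg ε hε
    refine ⟨a, b, δ, ha, hab, hδ, fun g' hg' => ?_⟩
    have := H g' hg'
    rw [show -Ψ g' - -Ψ g = -(Ψ g' - Ψ g) by ring, abs_neg]
    exact this

end FEaux

open FEaux in
/-- FE -/
theorem FE : FE_stmt := by
  intro I _ p X hp hp1 Ω _ P _ ell hmeas hcont hfdd heq Ψ hΨ
  -- upper half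
  have upper : ∀ Ψ : (ℝ → ℝ) → ℝ, CtsFunctional Ψ → ∀ ε : ℝ, 0 < ε → ∀ᶠ k in atTop,
      ∑ i, p k i * Ψ (X k i) < (∫ ω, Ψ (fun r => ell r ω) ∂P) + ε := by
    intro Ψ hΨ ε hε
    obtain ⟨M, hM⟩ := hΨ.bdd
    have hconv : ∀ m : ℕ, AEStronglyMeasurable (fun ω => env m Ψ (fun r => ell r ω)) P ∧
        Tendsto (fun k => ∑ i, p k i * env m Ψ (X k i)) atTop
          (𝓝 (∫ ω, env m Ψ (fun r => ell r ω) ∂P)) := by
      intro m
      have h2 : (0 : ℝ) < (m : ℝ) + 2 := by positivity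
      have hm0 : (0 : ℝ) ≤ m := Nat.cast_nonneg m
      apply lip_conv (M := M) (L := (m : ℝ) + 2) hp hp1 hmeas hcont hfdd heq
        (lo := 1 / ((m : ℝ) + 2)) (hi := (m : ℝ) + 2)
      · positivity
      · rw [div_lt_iff₀ h2]
        nlinarith
      · exact h2.le
      · exact env_abs m hM
      · exact env_lip m hM
    have hlim : ∀ᵐ ω ∂P, Tendsto (fun m : ℕ => env m Ψ (fun r => ell r ω)) atTop
        (𝓝 (Ψ (fun r => ell r ω))) := by
      filter_upwards [hcont] with ω hω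
      exact env_tendsto hΨ hM _ hω
    have hint : Tendsto (fun m : ℕ => ∫ ω, env m Ψ (fun r => ell r ω) ∂P) atTop
        (𝓝 (∫ ω, Ψ (fun r => ell r ω) ∂P)) := by
      apply tendsto_integral_of_dominated_convergence (fun _ => M) (fun m => (hconv m).1)
        (integrable_const M)
      · intro m
        exact Eventually.of_forall (fun ω => by rw [Real.norm_eq_abs]; exact env_abs m hM _)
      · exact hlim
    have h1 : ∀ᶠ m : ℕ in atTop, ∫ ω, env m Ψ (fun r => ell r ω) ∂P <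
        (∫ ω, Ψ (fun r => ell r ω) ∂P) + ε := by
      exact hint.eventually_lt_const (by linarith)
    obtain ⟨m, hm⟩ := h1.exists
    have h2 : ∀ᶠ k in atTop, ∑ i, p k i * env m Ψ (X k i) <
        (∫ ω, Ψ (fun r => ell r ω) ∂P) + ε := (hconv m).2.eventually_lt_const hm
    filter_upwards [h2] with k hk
    refine lt_of_le_of_lt ?_ hk
    apply Finset.sum_le_sum
    intro i _
    exact mul_le_mul_of_nonneg_left (le_env m hM _) (hp k i)
  rw [Metric.tendsto_nhds]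
  intro ε hε
  filter_upwards [upper Ψ hΨ ε hε, upper (fun g => -Ψ g) (neg_cts hΨ) ε hε] with k h1 h2
  have h3 : ∑ i, p k i * (fun g => -Ψ g) (X k i) = - ∑ i, p k i * Ψ (X k i) := by
    rw [← Finset.sum_neg_distrib]
    apply Finset.sum_congr rfl
    intro i _
    simp
  have h4 : ∫ ω, (fun g => -Ψ g) (fun r => ell r ω) ∂P = - ∫ ω, Ψ (fun r => ell r ω) ∂P := by
    exact integral_neg _
  rw [h3, h4] at h2
  rw [Real.dist_eq, abs_lt]
  constructor <;> linarith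

end Pool.Agent.helper90.FN
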