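import Pool.Agent.helper90.FN.Goals

/-!
fn:FF : final assembly of the functional form from FE, the equicontinuity and the f.d.d. theorem.
-/

set_option autoImplicit false

open scoped BigOperators Topology
open Filter MeasureTheory

namespace Pool.Agent.helper90.FN

open Pool.Agent.helper20.HP (ind ustE height vol Setup FinalGoal spTrees)

namespace FFaux

theorem ustE_eq {V : Type} [Fintype V] (G : SimpleGraph V) (F : SimpleGraph V → ℝ) :
    ustE G F = ∑ T : {T // T ∈ spTrees G}, (1 / ((spTrees G).card : ℝ)) * F T.1 := by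
  unfold ustE
  rw [← Finset.mul_sum, Finset.sum_coe_sort (spTrees G) F]
  ring

theorem card_pos {V : Type} [Fintype V] (G : SimpleGraph V) (h : G.Connected) :
    0 < ((spTrees G).card : ℝ) := by
  obtain ⟨T, hT, hT'⟩ := h.exists_isTree_le
  have : T ∈ spTrees G := by simp [spTrees, hT, hT']
  exact_mod_cast Finset.card_pos.2 ⟨T, this⟩

theorem ind_mono {p q : Prop} (h : p → q) : ind p ≤ ind q := by
  unfold ind
  by_cases hp : p
  · rw [if_pos hp, if_pos (h hp)]
  · rw [if_neg hp]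
    split_ifs
    · norm_num
    · exact le_rfl

end FFaux

open FFaux in
/-- the assembly for one sequence -/
theorem FF_core (hFE : FE_stmt) (hFin : FinalGoal) (S : Setup)
    (hEq : ∀ (A ε η : ℝ), 0 < ε → 0 < η → ∃ δ : ℝ, 0 < δ ∧
      ∀ᶠ k in atTop, ustE (S.G k) (fun T => ind (∃ r r' : ℕ,
        (r : ℝ) ≤ A * Real.sqrt (Fintype.card (S.V k)) ∧
        (r' : ℝ) ≤ A * Real.sqrt (Fintype.card (S.V k)) ∧
        |(r : ℝ) - r'| ≤ δ * Real.sqrt (Fintype.card (S.V k)) ∧
        ε * Real.sqrt (Fintype.card (S.V k)) <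
          |(height T (S.o k) r : ℝ) - height T (S.o k) r'|)) ≤ η)
    (β : ℕ → ℝ) (b₁ b₂ : ℝ) (hb₁ : 0 < b₁) (hβ : ∀ k, b₁ ≤ β k ∧ β k ≤ b₂)
    (Ω : Type) [MeasurableSpace Ω] (P : Measure Ω) [IsProbabilityMeasure P]
    (ell : ℝ → Ω → ℝ)
    (hmeas : ∀ r, 0 < r → AEMeasurable (ell r) P)
    (hcont : ∀ᵐ ω ∂P, ContinuousOn (fun r => ell r ω) (Set.Ioi 0))
    (hint : ∀ᵐ ω ∂P, ∀ r, 0 < r → IntervalIntegrable (fun u => ell u ω) volume 0 r)
    (hvol : ∀ (m : ℕ) (s : Fin m → ℝ), (∀ i, 0 < s i) → ∀ F : BoundedContinuousFunction (Fin m → ℝ) ℝ,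
      Tendsto (fun k => ustE (S.G k) (fun T => F (fun i =>
          (vol T (S.o k) ⌊s i * β k * Real.sqrt (Fintype.card (S.V k))⌋₊ : ℝ)
            / (Fintype.card (S.V k) : ℝ)))) atTop
        (𝓝 (∫ ω, F (fun i => ∫ u in (0 : ℝ)..(s i), ell u ω) ∂P)))
    (Ψ : (ℝ → ℝ) → ℝ) (hΨ : CtsFunctional Ψ) :
    Tendsto (fun k => ustE (S.G k) (fun T => Ψ (fun s =>
          β k / Real.sqrt (Fintype.card (S.V k))
            * (height T (S.o k) ⌊s * β k * Real.sqrt (Fintype.card (S.V k))⌋₊ : ℝ)))) atTop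
        (𝓝 (∫ ω, Ψ (fun r => ell r ω) ∂P)) := by
  have hfdd := hFin S β b₁ b₂ hb₁ hβ Ω inferInstance P inferInstance ell hmeas hcont hint hvol
  have hb₂ : 0 < b₂ := hb₁.trans_le ((hβ 0).1.trans (hβ 0).2)
  have hsq : Tendsto (fun k => Real.sqrt (Fintype.card (S.V k) : ℝ)) atTop atTop :=
    Real.tendsto_sqrt_atTop.comp (tendsto_natCast_atTop_atTop.comp S.card)
  have key := hFE (fun k => {T // T ∈ spTrees (S.G k)})
    (fun k _ => 1 / ((spTrees (S.G k)).card : ℝ))
    (fun k T s => β k / Real.sqrt (Fintype.card (S.V k))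
            * (height T.1 (S.o k) ⌊s * β k * Real.sqrt (Fintype.card (S.V k))⌋₊ : ℝ))
    (fun k _ => by positivity)
    (fun k => by
      have hc := card_pos (S.G k) (S.conn k)
      rw [Finset.sum_const, Finset.card_univ, Fintype.card_coe, nsmul_eq_mul]
      field_simp)
    Ω inferInstance P inferInstance ell hmeas hcont
    (fun m s hs F => by
      have := hfdd m s hs F
      simp_rw [ustE_eq] at this
      exact this)
    (fun a b ε η ha hab hε hη => by
      obtain ⟨δ', hδ', hev⟩ := hEq (b * b₂) (ε / b₂) η (by positivity) hη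
      refine ⟨δ' / (2 * b₂), by positivity, ?_⟩
      filter_upwards [hev, hsq.eventually_ge_atTop (2 / δ'), hsq.eventually_ge_atTop 1] with k hk hn hn1
      rw [ustE_eq] at hk
      refine le_trans (Finset.sum_le_sum (fun T _ => mul_le_mul_of_nonneg_left
        (ind_mono ?_) (by positivity))) hk
      rintro ⟨s, hs, s', hs', hss, hlt⟩
      set n := Real.sqrt (Fintype.card (S.V k) : ℝ) with hn_def
      have hnp : 0 < n := by linarith
      have hβk := hβ k
      have hβp : 0 < β k := hb₁.trans_le hβk.1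
      have hsp : 0 < s := ha.trans_le hs.1
      have hsp' : 0 < s' := ha.trans_le hs'.1
      refine ⟨⌊s * β k * n⌋₊, ⌊s' * β k * n⌋₊, ?_, ?_, ?_, ?_⟩
      · refine (Nat.floor_le (by positivity)).trans ?_
        apply mul_le_mul_of_nonneg_right _ hnp.le
        exact mul_le_mul hs.2 hβk.2 hβp.le (by linarith)
      · refine (Nat.floor_le (by positivity)).trans ?_
        apply mul_le_mul_of_nonneg_right _ hnp.le
        exact mul_le_mul hs'.2 hβk.2 hβp.le (by linarith)
      · have f1 := Nat.floor_le (show 0 ≤ s * β k * n by positivity)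
        have f2 := Nat.lt_floor_add_one (s * β k * n)
        have f3 := Nat.floor_le (show 0 ≤ s' * β k * n by positivity)
        have f4 := Nat.lt_floor_add_one (s' * β k * n)
        have g1 : |s * β k * n - s' * β k * n| ≤ δ' / 2 * n := by
          rw [← sub_mul, ← sub_mul, abs_mul, abs_mul, abs_of_pos hβp, abs_of_pos hnp]
          apply mul_le_mul_of_nonneg_right _ hnp.le
          calc |s - s'| * β k ≤ δ' / (2 * b₂) * b₂ :=
                mul_le_mul hss hβk.2 hβp.le (by positivity)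
            _ = δ' / 2 := by field_simp
        have g2 : 1 ≤ δ' / 2 * n := by
          rw [div_le_iff₀ hδ'] at hn
          linarith
        rw [abs_le] at g1 ⊢
        constructor
        · linarith [g1.1]
        · linarith [g1.2]
      · rw [← mul_sub, abs_mul, abs_of_pos (div_pos hβp hnp)] at hlt
        rw [div_mul_eq_mul_div, lt_div_iff₀ hnp] at hlt
        rw [div_mul_eq_mul_div, div_lt_iff₀ hb₂]
        have h1 : β k * |(height T.1 (S.o k) ⌊s * β k * n⌋₊ : ℝ) - height T.1 (S.o k) ⌊s' * β k * n⌋₊| ≤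
            |(height T.1 (S.o k) ⌊s * β k * n⌋₊ : ℝ) - height T.1 (S.o k) ⌊s' * β k * n⌋₊| * b₂ := by
          rw [mul_comm]
          exact mul_le_mul_of_nonneg_left hβk.2 (abs_nonneg _)
        linarith)
    Ψ hΨ
  simp_rw [ustE_eq]
  exact key

/-- FF -/
theorem FF : FF_stmt := by
  intro hFE hEq hFin S β b₁ b₂ hb₁ hβ Ω _ P _ ell hmeas hcont hint hvol Ψ hΨ
  exact FF_core hFE hFin S (hEq S) β b₁ b₂ hb₁ hβ Ω P ell hmeas hcont hint hvol Ψ hΨ

end Pool.Agent.helper90.FN
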