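import Pool.Agent.helper20.FN.FF
import Pool.Agent.helper90.FN.Goals2
import Pool.Agent.helper90.FN.CH
import Pool.Agent.helper65.HP.Final

/-!
fn:FF2 : final assembly of the functional form. The convergence of the volume profile to a limit of total
mass one gives the tightness of the distance of a uniform vertex.
-/

set_option autoImplicit false

open scoped BigOperators Topology
open Filter MeasureTheory

namespace Pool.Agent.helper90.FN

open Pool.Agent.helper20.HP (ind ustE height vol Setup FinalGoal spTrees)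
open Pool.Agent.helper72.UT (dep fors treeOf mem_fors)

namespace FF2aux

/-- truncation to `[0, 1]` of the first coordinate -/
noncomputable def F1 : BoundedContinuousFunction (Fin 1 → ℝ) ℝ :=
  BoundedContinuousFunction.ofNormedAddCommGroup (fun x => max 0 (min (x 0) 1))
    (by fun_prop) 1 (fun x => by
      rw [Real.norm_eq_abs, abs_of_nonneg (le_max_left _ _)]
      exact max_le zero_le_one (min_le_right _ _))

theorem F1_apply (x : Fin 1 → ℝ) : F1 x = max 0 (min (x 0) 1) := rfl

theorem F1_le_one (x : Fin 1 → ℝ) : F1 x ≤ 1 := by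
  rw [F1_apply]
  exact max_le zero_le_one (min_le_right _ _)

theorem F1_nonneg (x : Fin 1 → ℝ) : 0 ≤ F1 x := by
  rw [F1_apply]
  exact le_max_left _ _

/-- pointwise bound for one tree -/
theorem tree_bound {V : Type} [Fintype V] [DecidableEq V] (T : SimpleGraph V) (o : V) (a b : ℝ)
    (hb : 0 ≤ b) (hab : b ≤ a) :
    ∑ v, ind (a < (T.dist o v : ℝ)) ≤
      (Fintype.card V : ℝ) - (vol T o ⌊b⌋₊ : ℝ) := by
  classical
  have h1 : (∑ v : V, ind (a < (T.dist o v : ℝ))) + (vol T o ⌊b⌋₊ : ℝ) ≤ (Fintype.card V : ℝ) := by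
    unfold vol
    rw [Finset.card_filter, Nat.cast_sum, ← Finset.sum_add_distrib]
    have h2 : (Fintype.card V : ℝ) = ∑ _v : V, (1 : ℝ) := by simp
    rw [h2]
    apply Finset.sum_le_sum
    intro v _
    unfold ind
    by_cases h3 : a < (T.dist o v : ℝ)
    · rw [if_pos h3]
      have h4 : ¬ T.dist o v ≤ ⌊b⌋₊ := by
        intro h5
        have h6 : (T.dist o v : ℝ) ≤ b := (Nat.le_floor_iff hb).1 h5
        linarith
      rw [if_neg h4]
      simp
    · rw [if_neg h3]
      split_ifs <;> simp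
  linarith

theorem ustE_lin {V : Type} [Fintype V] (G : SimpleGraph V) (hG : G.Connected)
    (F : SimpleGraph V → ℝ) (c : ℝ) :
    ustE G (fun T => c * (1 - F T)) = c * (1 - ustE G F) := by
  have hc := FFaux.card_pos G hG
  unfold ustE
  rw [← Finset.mul_sum, Finset.sum_sub_distrib, Finset.sum_const, nsmul_eq_mul]
  field_simp

theorem ustE_mono {V : Type} [Fintype V] (G : SimpleGraph V) (F F' : SimpleGraph V → ℝ)
    (h : ∀ T, F T ≤ F' T) : ustE G F ≤ ustE G F' := by
  unfold ustE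
  exact div_le_div_of_nonneg_right (Finset.sum_le_sum (fun T _ => h T)) (by positivity)

end FF2aux

open FF2aux in
/-- convergence of the volume profile to a limit of total mass one gives tightness -/
theorem tight_of_vol (S : Setup)
    (β : ℕ → ℝ) (b₁ b₂ : ℝ) (hb₁ : 0 < b₁) (hβ : ∀ k, b₁ ≤ β k ∧ β k ≤ b₂)
    (Ω : Type) [MeasurableSpace Ω] (P : Measure Ω) [IsProbabilityMeasure P]
    (ell : ℝ → Ω → ℝ)
    (hmeas : ∀ r, 0 < r → AEMeasurable (ell r) P)
    (hcont : ∀ᵐ ω ∂P, ContinuousOn (fun r => ell r ω) (Set.Ioi 0))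
    (htot : ∀ᵐ ω ∂P, Tendsto (fun r : ℝ => ∫ u in (0 : ℝ)..r, ell u ω) atTop (𝓝 1))
    (hvol : ∀ (m : ℕ) (s : Fin m → ℝ), (∀ i, 0 < s i) → ∀ F : BoundedContinuousFunction (Fin m → ℝ) ℝ,
      Tendsto (fun k => ustE (S.G k) (fun T => F (fun i =>
          (vol T (S.o k) ⌊s i * β k * Real.sqrt (Fintype.card (S.V k))⌋₊ : ℝ)
            / (Fintype.card (S.V k) : ℝ)))) atTop
        (𝓝 (∫ ω, F (fun i => ∫ u in (0 : ℝ)..(s i), ell u ω) ∂P))) :
    Tight S := by
  intro ε hε
  have hb₂ : 0 < b₂ := hb₁.trans_le ((hβ 0).1.trans (hβ 0).2)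
  -- the limit in `s`
  have hlim : Tendsto (fun j : ℕ => ∫ ω, F1 (fun _ => ∫ u in (0 : ℝ)..((j : ℝ) + 1), ell u ω) ∂P) atTop
      (𝓝 (∫ _ω : Ω, (1 : ℝ) ∂P)) := by
    apply tendsto_integral_of_dominated_convergence (fun _ => (1 : ℝ))
    · intro j
      apply AEMeasurable.aestronglyMeasurable
      apply F1.continuous.measurable.comp_aemeasurable
      apply aemeasurable_pi_lambda
      intro _
      exact Pool.Agent.helper65.HP.vol_aemeasurable P ell hmeas hcont _ (by positivity)
    · exact integrable_const _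
    · intro j
      exact Eventually.of_forall (fun ω => by
        rw [Real.norm_eq_abs, abs_of_nonneg (F1_nonneg _)]
        exact F1_le_one _)
    · filter_upwards [htot] with ω hω
      have h1 : Tendsto (fun j : ℕ => (j : ℝ) + 1) atTop atTop :=
        tendsto_atTop_add_const_right _ _ tendsto_natCast_atTop_atTop
      have h2 : Tendsto (fun j : ℕ => ∫ u in (0 : ℝ)..((j : ℝ) + 1), ell u ω) atTop (𝓝 1) :=
        hω.comp h1
      have h3 : Tendsto (fun j : ℕ => max 0 (min (∫ u in (0 : ℝ)..((j : ℝ) + 1), ell u ω) 1)) atTop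
          (𝓝 (max 0 (min 1 1))) :=
        (tendsto_const_nhds (x := (0 : ℝ))).max (h2.min (tendsto_const_nhds (x := (1 : ℝ))))
      have h4 : (max 0 (min 1 1) : ℝ) = 1 := by norm_num
      rw [h4] at h3
      exact h3
  rw [integral_const, probReal_univ, one_smul] at hlim
  obtain ⟨j, hj⟩ := (hlim.eventually_const_lt (show 1 - ε < (1 : ℝ) by linarith)).exists
  have hk := hvol 1 (fun _ => (j : ℝ) + 1) (fun _ => by positivity) F1
  have hk2 := hk.eventually_const_lt hj
  refine ⟨((j : ℝ) + 1) * b₂, by positivity, ?_⟩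
  filter_upwards [hk2] with k hk3
  have hcardpos : (0 : ℝ) < Fintype.card (S.V k) := by
    have : Nonempty (S.V k) := ⟨S.o k⟩
    exact_mod_cast Fintype.card_pos
  have hβk := hβ k
  have hβp : 0 < β k := hb₁.trans_le hβk.1
  -- pass to trees
  have e1 : EF (S.G k) {S.o k} (fun f => ∑ v, ind (((j : ℝ) + 1) * b₂ *
      Real.sqrt (Fintype.card (S.V k)) < dep {S.o k} f v)) ≤
      ustE (S.G k) (fun T => ∑ v, ind (((j : ℝ) + 1) * b₂ *
      Real.sqrt (Fintype.card (S.V k)) < (T.dist (S.o k) v : ℝ))) := by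
    rw [CH_ustE (S.G k) (S.o k)]
    apply CH_EF_mono
    intro f hf
    rw [mem_fors] at hf
    apply le_of_eq
    refine Finset.sum_congr rfl (fun v _ => ?_)
    rw [hf.dist_eq]
  have e2 : ustE (S.G k) (fun T => ∑ v, ind (((j : ℝ) + 1) * b₂ *
      Real.sqrt (Fintype.card (S.V k)) < (T.dist (S.o k) v : ℝ))) ≤
      ustE (S.G k) (fun T => (Fintype.card (S.V k) : ℝ) * (1 - F1 (fun _ =>
          (vol T (S.o k) ⌊((j : ℝ) + 1) * β k * Real.sqrt (Fintype.card (S.V k))⌋₊ : ℝ)
            / (Fintype.card (S.V k) : ℝ)))) := by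
    apply ustE_mono
    intro T
    refine (tree_bound T (S.o k) _ (((j : ℝ) + 1) * β k * Real.sqrt (Fintype.card (S.V k)))
      (by positivity) ?_).trans ?_
    · apply mul_le_mul_of_nonneg_right _ (Real.sqrt_nonneg _)
      exact mul_le_mul_of_nonneg_left hβk.2 (by positivity)
    · rw [F1_apply]
      have hv : (vol T (S.o k) ⌊((j : ℝ) + 1) * β k * Real.sqrt (Fintype.card (S.V k))⌋₊ : ℝ) ≤
          Fintype.card (S.V k) := by
        unfold vol
        exact_mod_cast Finset.card_le_univ _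
      have hv0 : (0 : ℝ) ≤ (vol T (S.o k) ⌊((j : ℝ) + 1) * β k * Real.sqrt (Fintype.card (S.V k))⌋₊ : ℝ) :=
        Nat.cast_nonneg _
      rw [min_eq_left ((div_le_one hcardpos).2 hv), max_eq_right (div_nonneg hv0 hcardpos.le),
        mul_sub, mul_one, mul_div_cancel₀ _ hcardpos.ne']
  rw [ustE_lin _ (S.conn k)] at e2
  refine e1.trans (e2.trans ?_)
  rw [mul_comm]
  apply mul_le_mul_of_nonneg_right _ hcardpos.le
  linarith

/-- FF2 -/
theorem FF2 : FF2_stmt := by
  intro hFE hEq hFin S β b₁ b₂ hb₁ hβ Ω _ P _ ell hmeas hcont hint htot hvol Ψ hΨ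
  have hT : Tight S := tight_of_vol S β b₁ b₂ hb₁ hβ Ω P ell hmeas hcont htot hvol
  exact FF_core hFE hFin S (hEq S hT) β b₁ b₂ hb₁ hβ Ω P ell hmeas hcont hint hvol Ψ hΨ

end Pool.Agent.helper90.FN
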