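import Pool.Agent.helper64.FN.G1
import Pool.Agent.helper26.FN.G2
import Pool.Agent.helper26.FN.G3
import Pool.Agent.helper16.FN.G4
import Pool.Agent.helper61.FN.HS
import Pool.Agent.helper26.FN.HM
import Pool.Agent.helper93.FN.HG
import Pool.Agent.helper65.FN.DOM
import Pool.Agent.helper26.FN.OU
import Pool.Agent.helper93.FN.OD
import Pool.Agent.helper16.FN.UP
import Pool.Agent.helper31.FN.DN
import Pool.Agent.helper16.FN.TL
import Pool.Agent.helper17.FN.EM
import Pool.Agent.helper64.FN.EB
import Pool.Agent.helper64.FN.CC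
import Pool.Agent.helper1.FN.CT
import Pool.Agent.helper1.FN.CB
import Pool.Agent.helper1.FN.HY
import Pool.Agent.helper46.FN.CA
import Pool.Agent.helper30.FN.AP
import Pool.Agent.helper15.FN.BG
import Pool.Agent.helper65.FN.WD
import Pool.Agent.helper65.FN.BR
import Pool.Agent.helper65.FN.CAP
import Pool.Agent.helper65.FN.SL1

/-! Wiring of parts A and D of the functional form. -/

set_option autoImplicit false

namespace Pool.Agent.helper20.FN

open Pool.Agent.helper90.FN

theorem g1 : G1_stmt := G1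
theorem g2 : G2_stmt := G2 g1
theorem g3 : G3_stmt := G3 g2
theorem g4 : G4_stmt := G4
theorem hs : HS_stmt := HS
theorem hm : HM_stmt := HM
theorem hg : HG_stmt := HG g1 g4
theorem dom : DOM_stmt := DOM g1 g3 g4
theorem up : UP_stmt := UP g1 g3 g4 hs hg hm dom
theorem dn' : DN_stmt := DN g1 g3 g4 dom hm hs hg
theorem tl : TL_stmt := TL up dn' OU OD hs
theorem em : EM_stmt := EM g1 g3 g4
theorem eb : EB_stmt := EB g1 g3 g4 em
theorem ct : CT_stmt := CT
theorem cb : CB_stmt := CB
theorem ca : CA_stmt := CA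
theorem hy1 : HY1_stmt := HY1 ct cb
theorem hy2 : HY2_stmt := HY2 ct ca
theorem cc : CC_stmt := CC tl eb hy1
theorem ap : AP_stmt := AP g1 g3 g4 em hy2
theorem bg : BG_stmt := BG g1
theorem wdd : WD_stmt := WD g1 g4
theorem br : BR_stmt := BR g1 ct
theorem cap : CAP_stmt := CAP g1 g3 g4 ct cb
theorem sl1 : SL1_stmt := SL1 g3 g4 bg wdd cc ap

end Pool.Agent.helper20.FN
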