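import Pool.Agent.helper20.FN.Wire1
import Pool.Agent.helper20.FN.FE
import Pool.Agent.helper20.FN.FF2
import Pool.Agent.helper57.HPT.CM
import Pool.Agent.helper57.HPT.CU
import Pool.Agent.helper93.FN.SU2
import Pool.Agent.helper90.FN.CH
import Pool.Agent.helper20.HP.S3
import Pool.Agent.UQ.EQfin

/-! Wiring of the functional form: everything except the goodness of skeletons (part B) and the scale
lemma SL2. -/

set_option autoImplicit false

open scoped BigOperators Topology
open Filter MeasureTheory

namespace Pool.Agent.helper20.FN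

open Pool.Agent.helper90.FN
open Pool.Agent.helper20.HP (ind ustE height vol Setup FinalGoal StarGoal)

theorem cm : CMGoal := Pool.Agent.helper57.HPT.CM br

theorem cu : CUGoal := Pool.Agent.helper57.HPT.CU br

theorem cu2_of_cu (h : CUGoal) : CUGoal2 := by
  intro S K hK A Q ε hε
  obtain ⟨c, hc, hev⟩ := h S K hK A Q ε hε
  refine ⟨c, hc, ?_⟩
  filter_upwards [hev] with k hk f hf D hD h1 h2 h3
  refine hk f hf D hD h1 h2 (fun y hy => h3 y ?_)
  have : (0 : ℝ) ≤ 2 * (Pool.Agent.helper20.HP.wd (Fintype.card (S.V k)) S.a : ℝ) := by positivity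
  linarith

theorem cu2 : CUGoal2 := cu2_of_cu cu

theorem star : StarGoal :=
  Pool.Agent.helper20.HP.star_of_M (Pool.Agent.helper20.HP.M_of_EQ Pool.Agent.UQ.eq_goal)

theorem final : FinalGoal := Pool.Agent.helper65.HP.final_of_star star

theorem equi_of (hSL : SL22_stmt) (hB : BGoal2) : EquiGoal2 :=
  CH2 (hSL sl1 wdd hB cm) (SU2 sl1 wdd hB cu2 cap)

theorem func_of (hSL : SL22_stmt) (hB : BGoal2) : FuncGoal2 :=
  FF2 FE (equi_of hSL hB) final

end Pool.Agent.helper20.FN
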