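import Pool.Agent.helper20.FN.Wire2
import Pool.Agent.helper90.FN.SLb
import Pool.Agent.helper65.FB.BB
import Pool.Agent.helper66.FB.B2
import Pool.Agent.helper66.FB.IN
import Pool.Agent.helper66.FB.SS
import Pool.Agent.helper18.FB.B2S
import Pool.Agent.helper11.FB.K
import Pool.Agent.helper11.FB.QE
import Pool.Agent.helper14.FB.LC
import Pool.Agent.helper23.FB.CMP
import Pool.Agent.helper23.FB.IT
import Pool.Agent.helper25.FB.TS
import Pool.Agent.helper29.FB.CN
import Pool.Agent.helper33.FB.TT
import Pool.Agent.helper35.FB.HX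
import Pool.Agent.helper51.FB.H3
import Pool.Agent.helper51.FB.WI
import Pool.Agent.helper52.FB.EC
import Pool.Agent.helper6.FB.GB
import Pool.Agent.helper6.FB.H5
import Pool.Agent.helper61.FB.NF
import Pool.Agent.helper64.FB.BM
import Pool.Agent.helper64.FB.H1
import Pool.Agent.helper64.FB.ML
import Pool.Agent.helper74.FB.RV
import Pool.Agent.helper92.FB.SN
import Pool.Agent.helper92.FB.TV

/-! Wiring of the functional form: part B (goodness of skeletons), tightness, final theorem. -/

set_option autoImplicit false

open scoped BigOperators Topology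
open Filter MeasureTheory

namespace Pool.Agent.helper20.FN

open Pool.Agent.helper90.FN
open Pool.Agent.helper66.FB
open Pool.Agent.helper20.HP (ind ustE height vol Setup FinalGoal StarGoal)

theorem b1 : B1_stmt := B1 LC NF K1 IN SS QE WI K2 EC ES QH

theorem b2s : B2S_stmt := B2S LC NF K1 BM BL K2 K3 SS QE WI EC ES IN QH

theorem b2 : B2_stmt := B2 b2s

theorem bgoal2 : BGoal2 := BB g1 g2 g3 g4 IT WI K3 b1 b2

theorem h2 : H2_stmt := H2 HX H1

theorem h3 : H3_stmt := H3 HX H1

theorem h5 : H5_stmt := H5 HX RAY h2 h3

theorem cmp : CMP_stmt := CMP h5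

theorem cn : CN_stmt := CN g3 g4 WI K3

theorem sn : SN_stmt := SN K1 K3 RE AV QE

theorem ts : TS_stmt := TS cmp cn (TV WI) GB QE QH sn BM BL IN LC NF K1 SS WI K2 EC ES

/-- the distance of a uniform vertex to the root, divided by `√n`, is tight -/
theorem tight (S : Setup) : Pool.Agent.helper90.FN.Tight S := TT_FN ts S

/-- asymptotic equicontinuity of the height profile -/
theorem equi : EquiGoal := fun S => equi_of SL22 bgoal2 S (tight S)

/-- the functional form -/
theorem func : FuncGoal := FF FE equi final

end Pool.Agent.helper20.FN
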